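import Pool.Agent.MWFE.StmtsB
import Pool.Agent.Helper41_MWEN.XCH
import Pool.Agent.Helper41_MWEN.SMA

/-!
# Squad MWFE (MP_23468a_al), row XCZ (helper48)

Twin of helper41's version of XCH (helper66).
-/

set_option autoImplicit false

namespace Pool.Agent.MWFE.H48

open Pool.Agent.Helper14_MV Pool.Agent.Helper2_MV Pool.Agent.MVD
open Pool.Agent.MWE (Can XX fxy dxy dx dy up cp L4 pr Xs xl isx Fs nd nr)
open Pool.Agent.MWGR (cb)
open Pool.Agent.MWEN.H66 (itk rnv rnv_flat rnv_low rnv_v rnv_high flat_low flat_range bnd bw_append
  bw_cons bw_up)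
open Pool.Agent.MWEN.H27 (rep_lt)

/-- the two tokens -/
theorem kz03 (n z : ℕ) : KZ n z [0, 3] = tk n z 0 0 ++ tk n z 3 1 := by
  unfold KZ
  rw [List.flatMap_cons, List.flatMap_cons, List.flatMap_nil, List.append_nil]
  rfl

theorem kz30 (n z : ℕ) : KZ n z [3, 0] = tk n z 3 1 ++ tk n z 0 0 := by
  unfold KZ
  rw [List.flatMap_cons, List.flatMap_cons, List.flatMap_nil, List.append_nil]
  rfl

/-- the tokens are not changed by the substitution -/
theorem flat_kz {n z v M : ℕ} {X : List ℕ} (hz : z < M) (hX : ∀ a ∈ X, a < M) :
    (KZ n z X).flatMap (fun c => if M ≤ c then [v] else [c]) = KZ n z X := by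
  apply flat_low
  intro a ha
  unfold KZ at ha
  rw [List.mem_flatMap] at ha
  obtain ⟨u, hu, ha⟩ := ha
  unfold tk at ha
  rcases List.mem_append.1 ha with h | h
  · rw [List.eq_of_mem_replicate h]
    exact hz
  · rcases List.mem_cons.1 h with h | h
    · rw [h]
      exact hX u hu
    · rw [List.eq_of_mem_replicate h]
      exact hz

/-- fewer letters -/
theorem sml_nd {m : ℕ} {c c' : List ℕ} {a : ℕ} (hc : Can m c) (hsub : ∀ u ∈ c', u ∈ c)
    (hl : ∀ d < m, c'.count (3 * d + 1) ≤ 1) (ha : a ∈ c) (ha' : a ∉ c') : SmL c' c := by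
  right
  constructor
  · unfold nr
    apply Finset.card_le_card
    intro u hu
    rw [Finset.mem_filter, List.mem_toFinset] at hu ⊢
    refine ⟨hsub u hu.1, ?_⟩
    rcases hc.lo u (hsub u hu.1) with ⟨d, hd, rfl⟩ | ⟨_, _, h4⟩
    · have := hl d hd
      omega
    · exact h4
  · unfold nd
    apply Finset.card_lt_card
    rw [Finset.ssubset_iff_of_subset]
    · exact ⟨a, List.mem_toFinset.2 ha, fun h => ha' (List.mem_toFinset.1 h)⟩
    · intro u hu
      rw [List.mem_toFinset] at hu ⊢
      exact hsub u hu

/-- fewer repeated letters -/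
theorem sml_nr {m : ℕ} {c c' : List ℕ} {b : ℕ} (hc : Can m c)
    (hsub : ∀ u, 2 ≤ c'.count u → u ∈ c ∧ ∀ d < m, u ≠ 3 * d + 1) (hb : b ∈ c)
    (h2 : 2 ≤ c.count b) (hb' : c'.count b ≤ 1) : SmL c' c := by
  left
  apply rep_lt (b := b) _ hb h2
  · omega
  · intro u hu
    obtain ⟨h5, h6⟩ := hsub u hu
    rcases hc.lo u h5 with ⟨d, hd, rfl⟩ | ⟨_, _, h4⟩
    · exact absurd rfl (h6 d hd)
    · exact h4

/-- **XCZ** -/
theorem xcz : XczStmt := by
  intro n β m R c B e hz hcan ih hR hb hBs E A g C h0 h1 hor
  have hb' := hb
  obtain ⟨R1, R2, R3, hRe⟩ := hb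
  have hnd : R.Nodup := hR.nodup_iff.2 List.nodup_range
  have h1R : 1 ∈ R := by
    rw [hRe]
    simp
  obtain ⟨z, hzz⟩ : ∃ z, z = 3 * m + 1 := ⟨_, rfl⟩
  have hz0 : z ≠ 0 := by omega
  have hz3 : z ≠ 3 := by omega
  have hn : 0 < n := by
    have := hz.n2
    omega
  rw [← hzz] at h0 ⊢
  obtain ⟨P, hP⟩ : ∃ P, P = Bw R1 B := ⟨_, rfl⟩
  obtain ⟨Q, hQ⟩ : ∃ Q, Q = E ++ (3 * 0 + 2) :: Bw R2 B := ⟨_, rfl⟩
  obtain ⟨T, hT⟩ : ∃ T, T = (3 * 1 + 2) :: (Bw R3 B ++ e) := ⟨_, rfl⟩
  have hw : Bw R B ++ e = P ++ (KZ n z [0, 3] ++ (Q ++ (A ++ 0 :: (g ++ 3 :: (C ++ T))))) := by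
    rw [hRe, bw_append, bw_cons, bw_append, bw_cons, h0, h1, hP, hQ, hT]
    simp only [List.append_assoc, List.cons_append]
  have hw' : Bw R (up B 0 (KZ n z [3, 0] ++ E)) ++ e =
      P ++ (KZ n z [3, 0] ++ (Q ++ (A ++ 0 :: (g ++ 3 :: (C ++ T))))) := by
    rw [hRe] at hnd
    have hn1 : 0 ∉ R1 := fun h => (List.nodup_append.1 hnd).2.2 0 h 0 (by simp) rfl
    have hn2 : 0 ∉ R2 ++ 1 :: R3 := (List.nodup_cons.1 (List.nodup_append.1 hnd).2.1).1
    rw [List.mem_append, not_or, List.mem_cons, not_or] at hn2
    have e0 : up B 0 (KZ n z [3, 0] ++ E) 0 = KZ n z [3, 0] ++ E := if_pos rfl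
    have e1 : up B 0 (KZ n z [3, 0] ++ E) 1 = B 1 := if_neg one_ne_zero
    rw [hRe, bw_append, bw_cons, bw_append, bw_cons, bw_up _ _ _ _ hn1, bw_up _ _ _ _ hn2.1,
      bw_up _ _ _ _ hn2.2.2, e0, e1, h1, hP, hQ, hT]
    simp only [List.append_assoc, List.cons_append]
  -- letters of block 1
  have hin : ∀ u ∈ B 1, u ∈ Bw R B ++ e := by
    intro u hu
    refine List.mem_append_left _ ?_
    unfold Bw
    exact List.mem_flatMap.2 ⟨1, h1R, List.mem_append_left _ hu⟩
  have hmu : ∀ u ∈ B 1, 2 ≤
      (P ++ (KZ n z [0, 3] ++ (Q ++ (A ++ 0 :: (g ++ 3 :: (C ++ T)))))).count u := by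
    intro u hu
    rw [← hw]
    exact hBs.mu u (hin u hu) (hBs.sf 1 u hu)
  have hct : ∀ u ∈ B 1, u = 0 ∨ u = 3 ∨ u ∈ c := fun u hu => by
    rcases hBs.ct u (hin u hu) (hBs.sf 1 u hu) with h | h | h | h
    · exact Or.inl h
    · exact Or.inr (Or.inl h)
    · rw [h] at hu
      exact absurd hu (hBs.z1 1 h1R hb')
    · exact Or.inr (Or.inr h)
  have c0 := hBs.x1
  have c3 := hBs.y1
  rw [h1] at c0 c3
  simp only [List.count_append, List.count_cons, BEq.rfl, if_true] at c0 c3
  have hA0 : 0 ∉ A := fun h => by
    have := List.count_pos_iff.2 h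
    omega
  have hg0 : 0 ∉ g := fun h => by
    have := List.count_pos_iff.2 h
    omega
  have hC0 : 0 ∉ C := fun h => by
    have := List.count_pos_iff.2 h
    omega
  have hA3 : 3 ∉ A := fun h => by
    have := List.count_pos_iff.2 h
    omega
  have hg3 : 3 ∉ g := fun h => by
    have := List.count_pos_iff.2 h
    omega
  have hC3 : 3 ∉ C := fun h => by
    have := List.count_pos_iff.2 h
    omega
  have hAB : ∀ u ∈ A, u ∈ B 1 := fun u hu => by
    rw [h1]
    exact List.mem_append_left _ hu
  have hgB : ∀ u ∈ g, u ∈ B 1 := fun u hu => by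
    rw [h1]
    exact List.mem_append_right _ (List.mem_cons_of_mem _ (List.mem_append_left _ hu))
  have hCB : ∀ u ∈ C, u ∈ B 1 := fun u hu => by
    rw [h1]
    exact List.mem_append_right _ (List.mem_cons_of_mem _ (List.mem_append_right _
      (List.mem_cons_of_mem _ hu)))
  have h0B : 0 ∈ B 1 := by
    rw [h1]
    simp
  have h3B : 3 ∈ B 1 := by
    rw [h1]
    simp
  have hgc : ∀ u ∈ g, u ∈ c := fun u hu =>
    ((hct u (hgB u hu)).resolve_left fun h => hg0 (h ▸ hu)).resolve_left fun h => hg3 (h ▸ hu)
  have hAc : ∀ u ∈ A, u ∈ c := fun u hu =>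
    ((hct u (hAB u hu)).resolve_left fun h => hA0 (h ▸ hu)).resolve_left fun h => hA3 (h ▸ hu)
  have hCc : ∀ u ∈ C, u ∈ c := fun u hu =>
    ((hct u (hCB u hu)).resolve_left fun h => hC0 (h ▸ hu)).resolve_left fun h => hC3 (h ▸ hu)
  have hgl : ∀ d < m, g.count (3 * d + 1) ≤ 1 := by
    intro d hd
    have h2 := hBs.li d hd 1 h1R
    rw [if_pos (Or.inl rfl), h1] at h2
    simp only [List.count_append, List.count_cons] at h2
    omega
  rw [hw, hw']
  -- the exchange for a smaller word
  have hex : ∀ (g' : List ℕ), SmL g' c → ∀ (q r : List ℕ),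
      Mult g' (P ++ (KZ n z [0, 3] ++ (q ++ 0 :: (g' ++ 3 :: r)))) →
      RR β (P ++ (KZ n z [0, 3] ++ (q ++ 0 :: (g' ++ 3 :: r))))
        (P ++ (KZ n z [3, 0] ++ (q ++ 0 :: (g' ++ 3 :: r)))) := by
    intro g' hs q r hm
    rw [kz03, List.append_assoc] at hm
    have hf := ih g' hs P q r z 0 3 hz0 hz3 (by omega) hm
    rw [kz03, kz30, List.append_assoc, List.append_assoc]
    exact hf
  by_cases hall : ∃ a ∈ c, a ∉ g
  · obtain ⟨a, ha, hag⟩ := hall
    have hs : SmL g c := sml_nd hcan hgc hgl ha hag
    have hf := hex g hs (Q ++ A) (C ++ T) (fun u hu => by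
      have h2 := hmu u (hgB u hu)
      rw [List.append_assoc]
      exact h2)
    rw [List.append_assoc] at hf
    exact hf
  · push Not at hall
    -- a letter of `A` or `C` is a local letter
    have hloc : ∀ v ∈ c, (v ∈ A ∨ v ∈ C) → 2 ≤ c.count v := by
      intro v hvc hv
      rcases hcan.lo v hvc with ⟨d, hd, hvd⟩ | h2
      · exfalso
        have h2 := hBs.li d hd 1 h1R
        rw [if_pos (Or.inl rfl), h1, ← hvd] at h2
        have h3 := List.count_pos_iff.2 (hall v hvc)
        simp only [List.count_append, List.count_cons] at h2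
        rcases hv with hv | hv
        · have h4 := List.count_pos_iff.2 hv
          omega
        · have h4 := List.count_pos_iff.2 hv
          omega
      · exact h2.2.2
    have hor' : A ≠ [] ∨ C ≠ [] := by
      rcases hor with h | h
      · obtain ⟨a, ha, hag⟩ := h
        exact absurd (hall a ha) hag
      · exact h
    have hIT := hz.it
    obtain ⟨M, hM4, hMb⟩ := bnd (z :: (P ++ (KZ n z [0, 3] ++ (Q ++ (A ++ 0 :: (g ++ 3 :: (C ++ T)))))))
    have bz : z < M := hMb z List.mem_cons_self
    have bP : ∀ a ∈ P, a < M := fun a ha => hMb a (by simp [ha])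
    have bQ : ∀ a ∈ Q, a < M := fun a ha => hMb a (by simp [ha])
    have bA : ∀ a ∈ A, a < M := fun a ha => hMb a (by simp [ha])
    have bg : ∀ a ∈ g, a < M := fun a ha => hMb a (by simp [ha])
    have bC : ∀ a ∈ C, a < M := fun a ha => hMb a (by simp [ha])
    have bT : ∀ a ∈ T, a < M := fun a ha => hMb a (by simp [ha])
    -- the chain with different letters is smaller
    have hsm : ∀ v ∈ c, (v ∈ A ∨ v ∈ C) → SmL (rnv v M g) c := by
      intro v hvc hv
      have hvM : v < M := bg v (hall v hvc)
      refine sml_nr hcan ?_ hvc (hloc v hvc hv) ?_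
      · intro u hu
        by_cases h1 : M ≤ u
        · rw [rnv_high v M g M (le_refl M) bg u h1] at hu
          split_ifs at hu
          · omega
          · omega
        · by_cases h2 : u = v
          · rw [h2, rnv_v v g M hvM] at hu
            omega
          · rw [rnv_low v g M u (by omega) h2] at hu
            refine ⟨hgc u (List.count_pos_iff.1 (by omega)), ?_⟩
            rintro d hd rfl
            have := hgl d hd
            omega
      · rw [rnv_v v g M hvM]
        omega
    have hX03 : ∀ a ∈ [0, 3], a < M := by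
      intro a ha
      simp only [List.mem_cons, List.not_mem_nil, or_false] at ha
      omega
    have hX30 : ∀ a ∈ [3, 0], a < M := by
      intro a ha
      simp only [List.mem_cons, List.not_mem_nil, or_false] at ha
      omega
    have hK : ∀ u, (KZ n z [3, 0]).count u = (KZ n z [0, 3]).count u := by
      intro u
      rw [kz03, kz30, List.count_append, List.count_append, Nat.add_comm]
    rcases hor' with hA | hC
    · -- `A = v :: A2`
      obtain ⟨v, A2, rfl⟩ := List.exists_cons_of_ne_nil hA
      have hvc : v ∈ c := hAc v List.mem_cons_self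
      have hvg : v ∈ g := hall v hvc
      have hvM : v < M := bg v hvg
      obtain ⟨k, hk⟩ : ∃ k, k = g.count v := ⟨_, rfl⟩
      have hkn : k ≤ n * k := Nat.le_mul_of_pos_left k hn
      obtain ⟨g1, g2, hge⟩ := List.append_of_mem hvg
      -- insertion
      have key : ∀ X : List ℕ, (∀ u, X.count u = (KZ n z [0, 3]).count u) →
          RR β (P ++ (X ++ (Q ++ (v :: A2 ++ 0 :: (g ++ 3 :: (C ++ T))))))
            (P ++ (X ++ (Q ++ v :: (List.replicate (n * k) v ++ (A2 ++
              0 :: (g ++ 3 :: (C ++ T))))))) := by
        intro X hX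
        have h2 := itk hIT (P ++ (X ++ Q)) [] (A2 ++ 0 :: g1) (g2 ++ 3 :: (C ++ T)) v (fun u hu => by
          have h3 : u ∈ B 1 := by
            rw [List.nil_append] at hu
            rcases List.mem_append.1 hu with h | h
            · exact hAB u (List.mem_cons_of_mem _ h)
            · rcases List.mem_cons.1 h with h | h
              · rw [h]
                exact h0B
              · exact hgB u (by rw [hge]; exact List.mem_append_left _ h)
          have h4 := hmu u h3
          have h5 := hX u
          rw [hge] at h4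
          simp only [List.count_append, List.count_cons, List.count_nil] at h4 h5 ⊢
          omega) k
        rw [hge]
        simp only [List.append_assoc, List.cons_append, List.nil_append] at h2 ⊢
        exact h2
      have hf := hex _ (hsm v hvc (Or.inl List.mem_cons_self))
        (Q ++ v :: (List.replicate (n * k - k) v ++ (List.range' M k ++ A2))) (C ++ T)
        (fun u hu => by
          have hcu : 0 < (rnv v M g).count u := List.count_pos_iff.2 hu
          by_cases h1 : M ≤ u
          · have h2 := rnv_high v M g M (le_refl M) bg u h1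
            have h3 : M ≤ u ∧ u < M + g.count v := by
              by_contra hcon
              rw [if_neg hcon] at h2
              omega
            have h4 : 0 < (List.range' M k).count u := by
              rw [List.count_pos_iff, List.mem_range'_1]
              omega
            simp only [List.count_append, List.count_cons]
            omega
          · have h2 : u ≠ v := by
              rintro rfl
              rw [rnv_v u g M hvM] at hcu
              omega
            have h3 := rnv_low v g M u (by omega) h2
            have h4 := hmu u (hgB u (List.count_pos_iff.1 (by omega)))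
            simp only [List.count_append, List.count_cons] at h4 ⊢
            omega)
      have hf2 := RR.sub (fun c => if M ≤ c then [v] else [c]) hf
      have hrep : List.replicate (n * k - k) v ++ List.replicate k v =
          List.replicate (n * k) v := by
        rw [← List.replicate_add]
        congr 1
        omega
      have hA2 : ∀ a ∈ A2, a < M := fun a ha => bA a (List.mem_cons_of_mem _ ha)
      have hCT : ∀ a ∈ C ++ T, a < M := fun a ha => by
        rcases List.mem_append.1 ha with h | h
        · exact bC a h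
        · exact bT a h
      have hrl : ∀ a ∈ List.replicate (n * k - k) v, a < M := fun a ha => by
        rw [List.eq_of_mem_replicate ha]
        exact hvM
      simp only [List.flatMap_append, List.flatMap_cons, flat_kz bz hX03, flat_kz bz hX30, flat_low bP, flat_low bQ, flat_low hA2,
        flat_low bC, flat_low bT, flat_low hrl, flat_range v M k, rnv_flat v M g M (le_refl M) bg,
        if_neg (show ¬ M ≤ 0 by omega), if_neg (show ¬ M ≤ 3 by omega),
        if_neg (show ¬ M ≤ v by omega), List.cons_append, List.nil_append, List.append_assoc]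
        at hf2
      rw [← List.append_assoc (List.replicate (n * k - k) v), hrep] at hf2
      exact β.trans (β.trans (key (KZ n z [0, 3]) fun u => rfl) hf2)
        (RR.symm (key (KZ n z [3, 0]) fun u => hK u))
    · obtain ⟨v, C2, rfl⟩ := List.exists_cons_of_ne_nil hC
      have hvc : v ∈ c := hCc v List.mem_cons_self
      have hvg : v ∈ g := hall v hvc
      have hvM : v < M := bg v hvg
      obtain ⟨k, hk⟩ : ∃ k, k = g.count v := ⟨_, rfl⟩
      have hkn : k ≤ n * k := Nat.le_mul_of_pos_left k hn
      obtain ⟨g1, g2, hge⟩ := List.append_of_mem hvg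
      have key : ∀ X : List ℕ, (∀ u, X.count u = (KZ n z [0, 3]).count u) →
          RR β (P ++ (X ++ (Q ++ (A ++ 0 :: (g ++ 3 :: (v :: C2 ++ T))))))
            (P ++ (X ++ (Q ++ (A ++ 0 :: (g ++ 3 :: (List.replicate (n * k) v ++
              v :: (C2 ++ T))))))) := by
        intro X hX
        have h2 := itk hIT (P ++ (X ++ (Q ++ (A ++ 0 :: g1)))) (g2 ++ [3]) [] (C2 ++ T) v
          (fun u hu => by
          have h3 : u ∈ B 1 := by
            rw [List.append_nil] at hu
            rcases List.mem_append.1 hu with h | h
            · exact hgB u (by rw [hge]; exact List.mem_append_right _ (List.mem_cons_of_mem _ h))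
            · rw [List.mem_singleton] at h
              rw [h]
              exact h3B
          have h4 := hmu u h3
          have h5 := hX u
          rw [hge] at h4
          simp only [List.count_append, List.count_cons, List.count_nil] at h4 h5 ⊢
          omega) k
        rw [hge]
        simp only [List.append_assoc, List.cons_append, List.nil_append] at h2 ⊢
        exact h2
      have hf := hex _ (hsm v hvc (Or.inr List.mem_cons_self)) (Q ++ A)
        (List.range' M k ++ (List.replicate (n * k - k) v ++ v :: (C2 ++ T)))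
        (fun u hu => by
          have hcu : 0 < (rnv v M g).count u := List.count_pos_iff.2 hu
          by_cases h1 : M ≤ u
          · have h2 := rnv_high v M g M (le_refl M) bg u h1
            have h3 : M ≤ u ∧ u < M + g.count v := by
              by_contra hcon
              rw [if_neg hcon] at h2
              omega
            have h4 : 0 < (List.range' M k).count u := by
              rw [List.count_pos_iff, List.mem_range'_1]
              omega
            simp only [List.count_append, List.count_cons]
            omega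
          · have h2 : u ≠ v := by
              rintro rfl
              rw [rnv_v u g M hvM] at hcu
              omega
            have h3 := rnv_low v g M u (by omega) h2
            have h4 := hmu u (hgB u (List.count_pos_iff.1 (by omega)))
            simp only [List.count_append, List.count_cons] at h4 ⊢
            omega)
      have hf2 := RR.sub (fun c => if M ≤ c then [v] else [c]) hf
      have hrep : List.replicate k v ++ List.replicate (n * k - k) v =
          List.replicate (n * k) v := by
        rw [← List.replicate_add]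
        congr 1
        omega
      have hC2 : ∀ a ∈ C2, a < M := fun a ha => bC a (List.mem_cons_of_mem _ ha)
      have hrl : ∀ a ∈ List.replicate (n * k - k) v, a < M := fun a ha => by
        rw [List.eq_of_mem_replicate ha]
        exact hvM
      simp only [List.flatMap_append, List.flatMap_cons, flat_kz bz hX03, flat_kz bz hX30, flat_low bP, flat_low bQ, flat_low hC2,
        flat_low bA, flat_low bT, flat_low hrl, flat_range v M k, rnv_flat v M g M (le_refl M) bg,
        if_neg (show ¬ M ≤ 0 by omega), if_neg (show ¬ M ≤ 3 by omega),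
        if_neg (show ¬ M ≤ v by omega), List.cons_append, List.nil_append, List.append_assoc]
        at hf2
      rw [← List.append_assoc (List.replicate k v), hrep] at hf2
      exact β.trans (β.trans (key (KZ n z [0, 3]) fun u => rfl) hf2)
        (RR.symm (key (KZ n z [3, 0]) fun u => hK u))

end Pool.Agent.MWFE.H48
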